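import Mathlib

/-! Perfect matchings of vector-labelled complete bipartite graphs: a Euclidean bound. -/

namespace Pool.Agent.LibMatchDisc

open Finset Module
open scoped RealInnerProductSpace

section potential

variable {E : Type*} [NormedAddCommGroup E] [InnerProductSpace ℝ E]

/-- The fourth-moment potential. -/
noncomputable def phi (u : E) (V : ℝ) : ℝ := (‖u‖ ^ 2) ^ 2 + 6 * ‖u‖ ^ 2 * V + 3 * V ^ 2

lemma phi_step (u w : E) (V : ℝ) (hV : 0 ≤ V) (hw : ‖w‖ ^ 2 ≤ 4) :
    phi (u + w) V + phi (u - w) V ≤ 2 * phi u (V + 4) := by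
  unfold phi
  have h1 : ‖u + w‖ ^ 2 = ‖u‖ ^ 2 + 2 * ⟪u, w⟫ + ‖w‖ ^ 2 := norm_add_sq_real u w
  have h2 : ‖u - w‖ ^ 2 = ‖u‖ ^ 2 - 2 * ⟪u, w⟫ + ‖w‖ ^ 2 := norm_sub_sq_real u w
  have h3 : ⟪u, w⟫ ^ 2 ≤ ‖u‖ ^ 2 * ‖w‖ ^ 2 := by
    have := abs_real_inner_le_norm u w
    have h4 : ⟪u, w⟫ ^ 2 = |⟪u, w⟫| ^ 2 := (sq_abs _).symm
    rw [h4, ← mul_pow]
    exact pow_le_pow_left₀ (abs_nonneg _) this 2
  rw [h1, h2]
  have hp : 0 ≤ ‖u‖ ^ 2 := by positivity
  have hq : 0 ≤ ‖w‖ ^ 2 := by positivity
  generalize ‖u‖ ^ 2 = p at *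
  generalize ‖w‖ ^ 2 = q at *
  generalize ⟪u, w⟫ = t at *
  nlinarith [mul_nonneg hp (sub_nonneg.mpr hw), mul_nonneg hV (sub_nonneg.mpr hw),
    mul_nonneg hq (sub_nonneg.mpr hw)]

/-- Even case of the column choice. -/
lemma even_choice {R C : Type*} [DecidableEq C] (T : Finset R) (v : R → C → E)
    (hv : ∀ r c, ‖v r c‖ ≤ 1) (a : ℕ) :
    ∀ (S : Finset C), S.card = 2 * a → ∀ u : R → E,
    ∃ S1 ⊆ S, S1.card = a ∧
      ∑ r ∈ T, (‖u r + (∑ c ∈ S1, v r c - ∑ c ∈ S \ S1, v r c)‖ ^ 2) ^ 2 ≤
        ∑ r ∈ T, phi (u r) (4 * a) := by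
  induction a with
  | zero =>
    intro S hS u
    have hS' : S = ∅ := by
      rw [← Finset.card_eq_zero]
      omega
    subst hS'
    refine ⟨∅, Finset.Subset.refl _, rfl, ?_⟩
    apply Finset.sum_le_sum
    intro r _
    unfold phi
    simp
  | succ a ih =>
    intro S hS u
    obtain ⟨c, hc⟩ : S.Nonempty := by
      rw [← Finset.card_pos]
      omega
    obtain ⟨c', hc'⟩ : (S.erase c).Nonempty := by
      rw [← Finset.card_pos, Finset.card_erase_of_mem hc]
      omega
    have hcc' : c' ≠ c := (Finset.mem_erase.mp hc').1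
    have hc'S : c' ∈ S := (Finset.mem_erase.mp hc').2
    set S' := (S.erase c).erase c' with hS'
    have hcard : S'.card = 2 * a := by
      rw [hS', Finset.card_erase_of_mem hc', Finset.card_erase_of_mem hc]
      omega
    have hcS' : c ∉ S' := by
      rw [hS']
      simp
    have hc'S' : c' ∉ S' := by
      rw [hS']
      simp
    have hSS' : S = insert c (insert c' S') := by
      rw [hS', Finset.insert_erase hc', Finset.insert_erase hc]
    let w : R → E := fun r => v r c - v r c'
    have hw : ∀ r, ‖w r‖ ^ 2 ≤ 4 := by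
      intro r
      have h1 : ‖w r‖ ≤ 2 := by
        calc ‖w r‖ ≤ ‖v r c‖ + ‖v r c'‖ := norm_sub_le _ _
          _ ≤ 1 + 1 := add_le_add (hv r c) (hv r c')
          _ = 2 := by norm_num
      nlinarith [norm_nonneg (w r)]
    have hsum : ∑ r ∈ T, phi (u r + w r) (4 * a) + ∑ r ∈ T, phi (u r - w r) (4 * a) ≤
        2 * ∑ r ∈ T, phi (u r) (4 * ((a + 1 : ℕ) : ℝ)) := by
      rw [← Finset.sum_add_distrib, Finset.mul_sum]
      apply Finset.sum_le_sum
      intro r _
      have := phi_step (u r) (w r) (4 * a) (by positivity) (hw r)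
      have e : (4 : ℝ) * ((a + 1 : ℕ) : ℝ) = 4 * a + 4 := by push_cast; ring
      rw [e]
      exact this
    rcases le_or_gt (∑ r ∈ T, phi (u r + w r) (4 * a))
      (∑ r ∈ T, phi (u r) (4 * ((a + 1 : ℕ) : ℝ))) with hle | hgt
    · obtain ⟨S1, hS1, hS1c, hS1b⟩ := ih S' hcard (fun r => u r + w r)
      refine ⟨insert c S1, ?_, ?_, ?_⟩
      · rw [hSS']
        exact Finset.insert_subset_insert c (hS1.trans (Finset.subset_insert _ _))
      · rw [Finset.card_insert_of_notMem (fun h => hcS' (hS1 h)), hS1c]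
      · refine le_trans (le_of_eq ?_) (hS1b.trans hle)
        apply Finset.sum_congr rfl
        intro r _
        have e1 : S \ insert c S1 = insert c' (S' \ S1) := by
          rw [hSS']
          ext z
          simp only [Finset.mem_sdiff, Finset.mem_insert]
          constructor
          · rintro ⟨h1, h2⟩
            push Not at h2
            rcases h1 with h1 | h1 | h1
            · exact absurd h1 h2.1
            · exact Or.inl h1
            · exact Or.inr ⟨h1, h2.2⟩
          · rintro (h1 | ⟨h1, h2⟩)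
            · refine ⟨Or.inr (Or.inl h1), ?_⟩
              rw [h1]
              push Not
              exact ⟨hcc', fun h => hc'S' (hS1 h)⟩
            · refine ⟨Or.inr (Or.inr h1), ?_⟩
              push Not
              exact ⟨fun h => hcS' (h ▸ h1), h2⟩
        rw [e1, Finset.sum_insert (fun h => hcS' (hS1 h)),
          Finset.sum_insert (fun h => hc'S' (Finset.mem_sdiff.mp h).1)]
        congr 3
        simp only [w]
        abel
    · have hle : ∑ r ∈ T, phi (u r - w r) (4 * a) ≤
          ∑ r ∈ T, phi (u r) (4 * ((a + 1 : ℕ) : ℝ)) := by linarith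
      obtain ⟨S1, hS1, hS1c, hS1b⟩ := ih S' hcard (fun r => u r - w r)
      refine ⟨insert c' S1, ?_, ?_, ?_⟩
      · rw [hSS']
        exact (Finset.insert_subset_insert c' hS1).trans (Finset.subset_insert _ _)
      · rw [Finset.card_insert_of_notMem (fun h => hc'S' (hS1 h)), hS1c]
      · refine le_trans (le_of_eq ?_) (hS1b.trans hle)
        apply Finset.sum_congr rfl
        intro r _
        have e1 : S \ insert c' S1 = insert c (S' \ S1) := by
          rw [hSS']
          ext z
          simp only [Finset.mem_sdiff, Finset.mem_insert]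
          constructor
          · rintro ⟨h1, h2⟩
            push Not at h2
            rcases h1 with h1 | h1 | h1
            · exact Or.inl h1
            · exact absurd h1 h2.1
            · exact Or.inr ⟨h1, h2.2⟩
          · rintro (h1 | ⟨h1, h2⟩)
            · refine ⟨Or.inl h1, ?_⟩
              rw [h1]
              push Not
              exact ⟨hcc'.symm, fun h => hcS' (hS1 h)⟩
            · refine ⟨Or.inr (Or.inr h1), ?_⟩
              push Not
              exact ⟨fun h => hc'S' (h ▸ h1), h2⟩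
        rw [e1, Finset.sum_insert (fun h => hc'S' (hS1 h)),
          Finset.sum_insert (fun h => hcS' (Finset.mem_sdiff.mp h).1)]
        congr 3
        simp only [w]
        abel

/-- The average of `v` over `S` (zero for the empty set). -/
noncomputable def avg {C : Type*} (S : Finset C) (v : C → E) : E :=
  (1 / (S.card : ℝ)) • ∑ c ∈ S, v c

omit [InnerProductSpace ℝ E] in
lemma norm_sum_le_card {C : Type*} (S : Finset C) (v : C → E) (hv : ∀ c, ‖v c‖ ≤ 1) :
    ‖∑ c ∈ S, v c‖ ≤ S.card := by
  calc ‖∑ c ∈ S, v c‖ ≤ ∑ c ∈ S, ‖v c‖ := norm_sum_le _ _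
    _ ≤ ∑ c ∈ S, (1 : ℝ) := Finset.sum_le_sum (fun c _ => hv c)
    _ = S.card := by simp

lemma four_bound (x y : ℝ) :
    ((x + y) ^ 2) ^ 2 ≤ 8 * ((x ^ 2) ^ 2 + (y ^ 2) ^ 2) := by
  have h1 : (x + y) ^ 2 ≤ 2 * (x ^ 2 + y ^ 2) := by nlinarith [sq_nonneg (x - y)]
  have h2 : ((x + y) ^ 2) ^ 2 ≤ (2 * (x ^ 2 + y ^ 2)) ^ 2 :=
    pow_le_pow_left₀ (by positivity) h1 2
  nlinarith [sq_nonneg (x ^ 2 - y ^ 2)]

/-- The column choice inside one block. -/
lemma block_choice {R C : Type*} [DecidableEq C] (T : Finset R) (S : Finset C)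
    (v : R → C → E) (hv : ∀ r c, ‖v r c‖ ≤ 1) (hTS : T.card = S.card) (hS : 2 ≤ S.card) :
    ∃ S1 ⊆ S, S1.card = S.card / 2 ∧ ∀ r ∈ T,
      (‖avg S1 (v r) - avg (S \ S1) (v r)‖ ^ 2) ^ 2 ≤ 1160 / ((S.card / 2 : ℕ) : ℝ) := by
  set a := S.card / 2 with ha
  have ha1 : 1 ≤ a := by omega
  have ha0 : (0 : ℝ) < a := by exact_mod_cast ha1
  rcases Nat.even_or_odd' S.card with ⟨b, hb | hb⟩
  · -- even
    have hab : a = b := by omega
    obtain ⟨S1, hS1, hS1c, hS1b⟩ := even_choice T v hv a S (by omega) (fun _ => 0)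
    refine ⟨S1, hS1, hS1c, ?_⟩
    intro r hr
    have hc2 : (S \ S1).card = a := by
      rw [Finset.card_sdiff_of_subset hS1]
      omega
    have e1 : avg S1 (v r) - avg (S \ S1) (v r) =
        (1 / (a : ℝ)) • (∑ c ∈ S1, v r c - ∑ c ∈ S \ S1, v r c) := by
      unfold avg
      rw [hS1c, hc2, smul_sub]
    have e2 : (‖(∑ c ∈ S1, v r c - ∑ c ∈ S \ S1, v r c)‖ ^ 2) ^ 2 ≤ 96 * (a : ℝ) ^ 3 := by
      have h1 : (‖(∑ c ∈ S1, v r c - ∑ c ∈ S \ S1, v r c)‖ ^ 2) ^ 2 ≤
          ∑ r ∈ T, (‖(0 : E) + (∑ c ∈ S1, v r c - ∑ c ∈ S \ S1, v r c)‖ ^ 2) ^ 2 := by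
        have := Finset.single_le_sum
          (f := fun r => (‖(0 : E) + (∑ c ∈ S1, v r c - ∑ c ∈ S \ S1, v r c)‖ ^ 2) ^ 2)
          (fun i _ => by positivity) hr
        simpa using this
      refine h1.trans (hS1b.trans ?_)
      have h2 : ∀ r : R, phi (0 : E) (4 * (a : ℝ)) = 48 * (a : ℝ) ^ 2 := by
        intro _
        unfold phi
        simp
        ring
      rw [Finset.sum_congr rfl (fun r _ => h2 r), Finset.sum_const, hTS, hb, nsmul_eq_mul, ← hab]
      push_cast
      have : (2 * (a : ℝ)) * (48 * (a : ℝ) ^ 2) = 96 * (a : ℝ) ^ 3 := by ring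
      exact this.le
    rw [e1, norm_smul, mul_pow, mul_pow]
    have e3 : ((‖(1 / (a : ℝ))‖) ^ 2) ^ 2 = 1 / (a : ℝ) ^ 4 := by
      rw [Real.norm_of_nonneg (by positivity)]
      field_simp
    rw [e3]
    calc 1 / (a : ℝ) ^ 4 * (‖(∑ c ∈ S1, v r c - ∑ c ∈ S \ S1, v r c)‖ ^ 2) ^ 2
        ≤ 1 / (a : ℝ) ^ 4 * (96 * (a : ℝ) ^ 3) :=
          mul_le_mul_of_nonneg_left e2 (by positivity)
      _ = 96 / a := by field_simp
      _ ≤ 1160 / a := by
          apply div_le_div_of_nonneg_right _ ha0.le
          norm_num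
  · -- odd
    have hab : a = b := by omega
    obtain ⟨c0, hc0⟩ : S.Nonempty := by
      rw [← Finset.card_pos]
      omega
    have hcard0 : (S.erase c0).card = 2 * a := by
      rw [Finset.card_erase_of_mem hc0]
      omega
    obtain ⟨S1, hS1, hS1c, hS1b⟩ := even_choice T v hv a (S.erase c0) hcard0 (fun _ => 0)
    have hS1S : S1 ⊆ S := hS1.trans (Finset.erase_subset _ _)
    refine ⟨S1, hS1S, hS1c, ?_⟩
    intro r hr
    have hc2 : (S \ S1).card = a + 1 := by
      rw [Finset.card_sdiff_of_subset hS1S]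
      omega
    have hc3 : ((S.erase c0) \ S1).card = a := by
      rw [Finset.card_sdiff_of_subset hS1]
      omega
    have hc0S1 : c0 ∉ S1 := fun h => (Finset.mem_erase.mp (hS1 h)).1 rfl
    have e0 : S \ S1 = insert c0 ((S.erase c0) \ S1) := by
      ext z
      simp only [Finset.mem_sdiff, Finset.mem_insert, Finset.mem_erase]
      constructor
      · rintro ⟨h1, h2⟩
        by_cases hz : z = c0
        · exact Or.inl hz
        · exact Or.inr ⟨⟨hz, h1⟩, h2⟩
      · rintro (h | ⟨⟨_, h1⟩, h2⟩)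
        · rw [h]
          exact ⟨hc0, hc0S1⟩
        · exact ⟨h1, h2⟩
    have hnot : c0 ∉ (S.erase c0) \ S1 := by simp
    set A := ∑ c ∈ S1, v r c with hA
    set B := ∑ c ∈ (S.erase c0) \ S1, v r c with hB
    have e1 : avg S1 (v r) - avg (S \ S1) (v r) =
        (1 / (a : ℝ)) • (A - B) + ((1 / (a : ℝ) - 1 / ((a : ℝ) + 1)) • B -
          (1 / ((a : ℝ) + 1)) • v r c0) := by
      unfold avg
      rw [hS1c, hc2, e0, Finset.sum_insert hnot, ← hA, ← hB]
      push_cast
      rw [smul_sub, sub_smul, smul_add]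
      abel
    have e2 : (‖A - B‖ ^ 2) ^ 2 ≤ 144 * (a : ℝ) ^ 3 := by
      have h1 : (‖A - B‖ ^ 2) ^ 2 ≤
          ∑ r ∈ T, (‖(0 : E) + (∑ c ∈ S1, v r c - ∑ c ∈ (S.erase c0) \ S1, v r c)‖ ^ 2) ^ 2 := by
        have := Finset.single_le_sum
          (f := fun r => (‖(0 : E) +
            (∑ c ∈ S1, v r c - ∑ c ∈ (S.erase c0) \ S1, v r c)‖ ^ 2) ^ 2)
          (fun i _ => by positivity) hr
        simpa using this
      refine h1.trans (hS1b.trans ?_)
      have h2 : ∀ r : R, phi (0 : E) (4 * (a : ℝ)) = 48 * (a : ℝ) ^ 2 := by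
        intro _
        unfold phi
        simp
        ring
      rw [Finset.sum_congr rfl (fun r _ => h2 r), Finset.sum_const, hTS, hb, nsmul_eq_mul, ← hab]
      push_cast
      have ha1' : (1 : ℝ) ≤ a := by exact_mod_cast ha1
      nlinarith [sq_nonneg (a : ℝ), mul_nonneg (sq_nonneg (a : ℝ)) (sub_nonneg.mpr ha1')]
    have e3 : ‖(1 / (a : ℝ) - 1 / ((a : ℝ) + 1)) • B - (1 / ((a : ℝ) + 1)) • v r c0‖ ≤
        2 / ((a : ℝ) + 1) := by
      have hB' : ‖B‖ ≤ a := by
        have := norm_sum_le_card ((S.erase c0) \ S1) (v r) (hv r)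
        rw [hc3] at this
        exact this
      have hpos : (0 : ℝ) ≤ 1 / (a : ℝ) - 1 / ((a : ℝ) + 1) := by
        rw [sub_nonneg]
        apply one_div_le_one_div_of_le ha0
        linarith
      calc ‖(1 / (a : ℝ) - 1 / ((a : ℝ) + 1)) • B - (1 / ((a : ℝ) + 1)) • v r c0‖
          ≤ ‖(1 / (a : ℝ) - 1 / ((a : ℝ) + 1)) • B‖ + ‖(1 / ((a : ℝ) + 1)) • v r c0‖ :=
            norm_sub_le _ _
        _ = (1 / (a : ℝ) - 1 / ((a : ℝ) + 1)) * ‖B‖ + (1 / ((a : ℝ) + 1)) * ‖v r c0‖ := by
            rw [norm_smul, norm_smul, Real.norm_of_nonneg hpos,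
              Real.norm_of_nonneg (by positivity)]
        _ ≤ (1 / (a : ℝ) - 1 / ((a : ℝ) + 1)) * a + (1 / ((a : ℝ) + 1)) * 1 := by
            apply add_le_add
            · exact mul_le_mul_of_nonneg_left hB' hpos
            · exact mul_le_mul_of_nonneg_left (hv r c0) (by positivity)
        _ = 2 / ((a : ℝ) + 1) := by
            field_simp
            ring
    have e4 : ‖(1 / (a : ℝ)) • (A - B)‖ = (1 / (a : ℝ)) * ‖A - B‖ := by
      rw [norm_smul, Real.norm_of_nonneg (by positivity)]
    rw [e1]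
    have e5 : ‖(1 / (a : ℝ)) • (A - B) + ((1 / (a : ℝ) - 1 / ((a : ℝ) + 1)) • B -
          (1 / ((a : ℝ) + 1)) • v r c0)‖ ≤ (1 / (a : ℝ)) * ‖A - B‖ + 2 / ((a : ℝ) + 1) := by
      refine (norm_add_le _ _).trans ?_
      rw [e4]
      linarith
    have e6 : (((1 / (a : ℝ)) * ‖A - B‖) ^ 2) ^ 2 ≤ 144 / a := by
      rw [mul_pow, mul_pow]
      have : ((1 / (a : ℝ)) ^ 2) ^ 2 = 1 / (a : ℝ) ^ 4 := by field_simp
      rw [this]
      calc 1 / (a : ℝ) ^ 4 * (‖A - B‖ ^ 2) ^ 2 ≤ 1 / (a : ℝ) ^ 4 * (144 * (a : ℝ) ^ 3) :=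
            mul_le_mul_of_nonneg_left e2 (by positivity)
        _ = 144 / a := by field_simp
    have e7 : ((2 / ((a : ℝ) + 1)) ^ 2) ^ 2 ≤ 1 / a := by
      have : ((2 / ((a : ℝ) + 1)) ^ 2) ^ 2 = 16 / ((a : ℝ) + 1) ^ 4 := by
        field_simp
        norm_num
      rw [this, div_le_div_iff₀ (by positivity) ha0]
      have ha1' : (1 : ℝ) ≤ a := by exact_mod_cast ha1
      have h4 : 4 * (a : ℝ) ≤ ((a : ℝ) + 1) ^ 2 := by nlinarith [sq_nonneg ((a : ℝ) - 1)]
      have h5 : (4 : ℝ) ≤ ((a : ℝ) + 1) ^ 2 := by nlinarith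
      have h6 : ((a : ℝ) + 1) ^ 4 = ((a : ℝ) + 1) ^ 2 * ((a : ℝ) + 1) ^ 2 := by ring
      rw [h6]
      nlinarith [mul_le_mul h4 h5 (by norm_num) (by positivity)]
    calc (‖(1 / (a : ℝ)) • (A - B) + ((1 / (a : ℝ) - 1 / ((a : ℝ) + 1)) • B -
          (1 / ((a : ℝ) + 1)) • v r c0)‖ ^ 2) ^ 2
        ≤ (((1 / (a : ℝ)) * ‖A - B‖ + 2 / ((a : ℝ) + 1)) ^ 2) ^ 2 := by
          apply pow_le_pow_left₀ (by positivity)
          exact pow_le_pow_left₀ (norm_nonneg _) e5 2
      _ ≤ 8 * ((((1 / (a : ℝ)) * ‖A - B‖) ^ 2) ^ 2 + ((2 / ((a : ℝ) + 1)) ^ 2) ^ 2) :=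
          four_bound _ _
      _ ≤ 8 * (144 / a + 1 / a) := by linarith
      _ = 1160 / a := by ring

end potential

section rounding

variable {E : Type*} [NormedAddCommGroup E] [InnerProductSpace ℝ E]
variable {R B : Type*} [Fintype R] [DecidableEq R] [DecidableEq B]

/-- The fractional entries. -/
noncomputable def frac (x : R → ℝ) : Finset R := by
  classical exact univ.filter (fun r => 0 < x r ∧ x r < 1)

omit [DecidableEq R] in
lemma mem_frac (x : R → ℝ) (r : R) : r ∈ frac x ↔ 0 < x r ∧ x r < 1 := by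
  classical
  unfold frac
  simp

/-- Feasible points: entries in `[0,1]` with integral block sums. -/
structure Feas (β : R → B) (x : R → ℝ) : Prop where
  nonneg : ∀ r, 0 ≤ x r
  le_one : ∀ r, x r ≤ 1
  int : ∀ b, ∃ z : ℤ, ∑ r ∈ univ.filter (fun r => β r = b), x r = z

lemma partner {β : R → B} {x : R → ℝ} (hx : Feas β x) (r : R) (hr : r ∈ frac x) :
    ∃ r' ∈ frac x, r' ≠ r ∧ β r' = β r := by
  by_contra hcon
  push Not at hcon
  obtain ⟨z, hz⟩ := hx.int (β r)
  have hmem : r ∈ univ.filter (fun r' => β r' = β r) := by simp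
  rw [← Finset.add_sum_erase _ _ hmem] at hz
  have hint : ∑ r' ∈ (univ.filter (fun r' => β r' = β r)).erase r, x r' ∈
      (Int.castAddHom ℝ).range := by
    apply sum_mem
    intro r' hr'
    rw [Finset.mem_erase, Finset.mem_filter] at hr'
    have h1 : r' ∉ frac x := fun h => hcon r' h hr'.1 hr'.2.2
    rw [mem_frac] at h1
    rcases (hx.nonneg r').eq_or_lt with h0 | h0
    · exact ⟨0, by simpa using h0⟩
    · have h2 : ¬ x r' < 1 := fun h => h1 ⟨h0, h⟩
      have h3 : x r' = 1 := le_antisymm (hx.le_one r') (not_lt.mp h2)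
      exact ⟨1, by simpa using h3.symm⟩
  obtain ⟨m, hm⟩ := hint
  rw [mem_frac] at hr
  have h4 : x r = ((z - m : ℤ) : ℝ) := by
    push_cast
    have : (Int.castAddHom ℝ) m = (m : ℝ) := rfl
    rw [this] at hm
    linarith
  rw [h4] at hr
  have h5 : 0 < z - m := by exact_mod_cast hr.1
  have h6 : z - m < 1 := by exact_mod_cast hr.2
  omega

/-- Block sums are unchanged by a move along `e_r - e_{r'}` inside a block. -/
lemma blocksum_move (β : R → B) (x : R → ℝ) (r r' : R) (hβ : β r' = β r) (t : ℝ) (b : B) :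
    ∑ s ∈ univ.filter (fun s => β s = b),
        (x s + t * ((if s = r then 1 else 0) - (if s = r' then 1 else 0))) =
      ∑ s ∈ univ.filter (fun s => β s = b), x s := by
  rw [Finset.sum_add_distrib, ← Finset.mul_sum, Finset.sum_sub_distrib]
  have h1 : ∀ q : R, ∑ s ∈ univ.filter (fun s => β s = b), (if s = q then (1 : ℝ) else 0) =
      if β q = b then 1 else 0 := by
    intro q
    rw [Finset.sum_ite_eq']
    simp
  rw [h1, h1, hβ]
  simp

lemma sum_move (g : R → E) (r r' : R) (t : ℝ) :
    ∑ s, (t * ((if s = r then (1 : ℝ) else 0) - (if s = r' then 1 else 0))) • g s =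
      t • (g r - g r') := by
  have h1 : ∀ s : R, (t * ((if s = r then (1 : ℝ) else 0) - (if s = r' then 1 else 0))) • g s =
      (if s = r then t • g s else 0) - (if s = r' then t • g s else 0) := by
    intro s
    split_ifs <;> simp
  simp only [h1]
  rw [Finset.sum_sub_distrib, Finset.sum_ite_eq', Finset.sum_ite_eq']
  simp [smul_sub]

/-- Rounding inside blocks. -/
lemma rounding (β : R → B) (g : R → E) (ρ : ℝ) (hg : ∀ r, ‖g r‖ ≤ ρ) :
    ∀ N : ℕ, ∀ x : R → ℝ, Feas β x → (frac x).card ≤ N → ∀ e : E,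
    ∃ X : R → ℝ, (∀ r, X r = 0 ∨ X r = 1) ∧
      (∀ b, ∑ r ∈ univ.filter (fun r => β r = b), X r =
        ∑ r ∈ univ.filter (fun r => β r = b), x r) ∧
      ‖e + ∑ r, (X r - x r) • g r‖ ^ 2 ≤ ‖e‖ ^ 2 + N * ρ ^ 2 := by
  intro N
  induction N with
  | zero =>
    intro x hx hN e
    refine ⟨x, ?_, fun _ => rfl, ?_⟩
    · intro r
      by_contra hcon
      push Not at hcon
      have : r ∈ frac x := by
        rw [mem_frac]
        exact ⟨lt_of_le_of_ne (hx.nonneg r) (Ne.symm hcon.1), lt_of_le_of_ne (hx.le_one r) hcon.2⟩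
      have h0 : (frac x).card = 0 := by omega
      rw [Finset.card_eq_zero] at h0
      rw [h0] at this
      simp at this
    · simp
  | succ N ih =>
    intro x hx hN e
    rcases (frac x).eq_empty_or_nonempty with hemp | ⟨r, hr⟩
    · obtain ⟨X, h1, h2, h3⟩ := ih x hx (by rw [hemp]; simp) e
      refine ⟨X, h1, h2, h3.trans ?_⟩
      push_cast
      nlinarith [sq_nonneg ρ]
    · obtain ⟨r', hr', hne, hβ⟩ := partner hx r hr
      have hr0 := (mem_frac x r).mp hr
      have hr0' := (mem_frac x r').mp hr'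
      have hρ : 0 ≤ ρ := (norm_nonneg _).trans (hg r)
      -- the moved point
      let y : ℝ → R → ℝ := fun t s =>
        x s + t * ((if s = r then 1 else 0) - (if s = r' then 1 else 0))
      have hyr : ∀ t, y t r = x r + t := by
        intro t
        simp [y, hne.symm]
      have hyr' : ∀ t, y t r' = x r' - t := by
        intro t
        simp [y, hne]
        ring
      have hyo : ∀ t s, s ≠ r → s ≠ r' → y t s = x s := by
        intro t s h1 h2
        simp [y, h1, h2]
      have hyfeas : ∀ t, 0 ≤ x r + t → x r + t ≤ 1 → 0 ≤ x r' - t → x r' - t ≤ 1 →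
          Feas β (y t) := by
        intro t h1 h2 h3 h4
        refine ⟨?_, ?_, ?_⟩
        · intro s
          by_cases hs : s = r
          · rw [hs, hyr]; exact h1
          · by_cases hs' : s = r'
            · rw [hs', hyr']; exact h3
            · rw [hyo t s hs hs']; exact hx.nonneg s
        · intro s
          by_cases hs : s = r
          · rw [hs, hyr]; exact h2
          · by_cases hs' : s = r'
            · rw [hs', hyr']; exact h4
            · rw [hyo t s hs hs']; exact hx.le_one s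
        · intro b
          obtain ⟨z, hz⟩ := hx.int b
          refine ⟨z, ?_⟩
          rw [← hz]
          exact blocksum_move β x r r' hβ t b
      have hyfrac : ∀ t, (x r + t = 0 ∨ x r + t = 1 ∨ x r' - t = 0 ∨ x r' - t = 1) →
          (frac (y t)).card ≤ N := by
        intro t ht
        have hsub : frac (y t) ⊆ frac x := by
          intro s hs
          by_cases h1 : s = r
          · rw [h1]; exact hr
          · by_cases h2 : s = r'
            · rw [h2]; exact hr'
            · rw [mem_frac, hyo t s h1 h2, ← mem_frac] at hs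
              exact hs
        have hss : frac (y t) ⊂ frac x := by
          rw [Finset.ssubset_iff_subset_ne]
          refine ⟨hsub, ?_⟩
          intro heq
          have h1 : r ∈ frac (y t) := by rw [heq]; exact hr
          have h2 : r' ∈ frac (y t) := by rw [heq]; exact hr'
          rw [mem_frac, hyr] at h1
          rw [mem_frac, hyr'] at h2
          rcases ht with h | h | h | h
          · linarith [h1.1]
          · linarith [h1.2]
          · linarith [h2.1]
          · linarith [h2.2]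
        have := Finset.card_lt_card hss
        omega
      have hfin : ∀ t, Feas β (y t) → (frac (y t)).card ≤ N →
          ‖e + t • (g r - g r')‖ ^ 2 ≤ ‖e‖ ^ 2 + ρ ^ 2 →
          ∃ X : R → ℝ, (∀ r, X r = 0 ∨ X r = 1) ∧
            (∀ b, ∑ r ∈ univ.filter (fun r => β r = b), X r =
              ∑ r ∈ univ.filter (fun r => β r = b), x r) ∧
            ‖e + ∑ r, (X r - x r) • g r‖ ^ 2 ≤ ‖e‖ ^ 2 + ((N + 1 : ℕ) : ℝ) * ρ ^ 2 := by
        intro t h1 h2 h3
        obtain ⟨X, hX1, hX2, hX3⟩ := ih (y t) h1 h2 (e + t • (g r - g r'))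
        refine ⟨X, hX1, ?_, ?_⟩
        · intro b
          rw [hX2 b]
          exact blocksum_move β x r r' hβ t b
        · have e1 : e + ∑ s, (X s - x s) • g s =
              e + t • (g r - g r') + ∑ s, (X s - y t s) • g s := by
            rw [← sum_move g r r' t, add_assoc, ← Finset.sum_add_distrib]
            congr 1
            apply Finset.sum_congr rfl
            intro s _
            rw [← add_smul]
            congr 1
            simp only [y]
            ring
          rw [e1]
          push_cast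
          linarith
      set tp := min (1 - x r) (x r') with htp
      set tm := min (x r) (1 - x r') with htm
      have htp0 : 0 < tp := lt_min (by linarith [hr0.2]) hr0'.1
      have htm0 : 0 < tm := lt_min hr0.1 (by linarith [hr0'.2])
      have htp1 : tp ≤ 1 - x r := min_le_left _ _
      have htp2 : tp ≤ x r' := min_le_right _ _
      have htm1 : tm ≤ x r := min_le_left _ _
      have htm2 : tm ≤ 1 - x r' := min_le_right _ _
      set w := g r - g r' with hw
      have hwn : ‖w‖ ≤ 2 * ρ := by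
        calc ‖w‖ ≤ ‖g r‖ + ‖g r'‖ := norm_sub_le _ _
          _ ≤ 2 * ρ := by linarith [hg r, hg r']
      have hn : ∀ t : ℝ, ‖e + t • w‖ ^ 2 = ‖e‖ ^ 2 + 2 * t * ⟪e, w⟫ + t ^ 2 * ‖w‖ ^ 2 := by
        intro t
        rw [norm_add_sq_real, real_inner_smul_right, norm_smul, mul_pow, Real.norm_eq_abs, sq_abs]
        ring
      have hprod : tp * tm * ‖w‖ ^ 2 ≤ ρ ^ 2 := by
        have h1 : tp * tm ≤ 1 / 4 := by nlinarith [sq_nonneg (tp - tm)]
        have h2 : ‖w‖ ^ 2 ≤ 4 * ρ ^ 2 := by nlinarith [norm_nonneg w]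
        have h3 : 0 ≤ tp * tm := by positivity
        calc tp * tm * ‖w‖ ^ 2 ≤ (1 / 4) * (4 * ρ ^ 2) :=
              mul_le_mul h1 h2 (by positivity) (by norm_num)
          _ = ρ ^ 2 := by ring
      by_cases hcase : ‖e + tp • w‖ ^ 2 ≤ ‖e‖ ^ 2 + ρ ^ 2
      · apply hfin tp _ _ hcase
        · apply hyfeas <;> linarith [hr0.1, hr0'.2]
        · apply hyfrac
          rcases min_choice (1 - x r) (x r') with h | h
          · right; left
            rw [htp, h]; ring
          · right; right; left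
            rw [htp, h]; ring
      · have hcase2 : ‖e + (-tm) • w‖ ^ 2 ≤ ‖e‖ ^ 2 + ρ ^ 2 := by
          by_contra hcon
          push Not at hcase hcon
          rw [hn] at hcase hcon
          have h1 : tm * (‖e‖ ^ 2 + ρ ^ 2) < tm * (‖e‖ ^ 2 + 2 * tp * ⟪e, w⟫ + tp ^ 2 * ‖w‖ ^ 2) :=
            mul_lt_mul_of_pos_left hcase htm0
          have h2 : tp * (‖e‖ ^ 2 + ρ ^ 2) <
              tp * (‖e‖ ^ 2 + 2 * (-tm) * ⟪e, w⟫ + (-tm) ^ 2 * ‖w‖ ^ 2) :=
            mul_lt_mul_of_pos_left hcon htp0
          have h3 : (tp + tm) * ρ ^ 2 < (tp + tm) * (tp * tm * ‖w‖ ^ 2) := by nlinarith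
          have h4 : (tp + tm) * (tp * tm * ‖w‖ ^ 2) ≤ (tp + tm) * ρ ^ 2 :=
            mul_le_mul_of_nonneg_left hprod (by positivity)
          linarith
        apply hfin (-tm) _ _ hcase2
        · apply hyfeas <;> linarith [hr0.2, hr0'.1]
        · apply hyfrac
          rcases min_choice (x r) (1 - x r') with h | h
          · left
            rw [htm, h]; ring
          · right; right; right
            rw [htm, h]; ring

/-- There is a feasible point with the same sums and few fractional entries. -/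
lemma few_frac [FiniteDimensional ℝ E] (β : R → B) (g : R → E) (x : R → ℝ) (hx : Feas β x) :
    ∃ y : R → ℝ, Feas β y ∧
      (∀ b, ∑ r ∈ univ.filter (fun r => β r = b), y r =
        ∑ r ∈ univ.filter (fun r => β r = b), x r) ∧
      ∑ r, y r • g r = ∑ r, x r • g r ∧ (frac y).card ≤ 2 * finrank ℝ E := by
  let P : Set (R → ℝ) := {y | (∀ r, y r ∈ Set.Icc (0 : ℝ) 1) ∧
      (∀ b, ∑ r ∈ univ.filter (fun r => β r = b), y r =
        ∑ r ∈ univ.filter (fun r => β r = b), x r) ∧ ∑ r, y r • g r = ∑ r, x r • g r}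
  have hPx : x ∈ P := ⟨fun r => ⟨hx.nonneg r, hx.le_one r⟩, fun _ => rfl, rfl⟩
  have hPc : IsCompact P := by
    have h1 : IsCompact (Set.pi Set.univ (fun _ : R => Set.Icc (0 : ℝ) 1)) :=
      isCompact_univ_pi (fun _ => isCompact_Icc)
    apply h1.of_isClosed_subset
    · have h2 : P = (⋂ r, {y : R → ℝ | y r ∈ Set.Icc (0 : ℝ) 1}) ∩
          ((⋂ b, {y : R → ℝ | ∑ r ∈ univ.filter (fun r => β r = b), y r =
            ∑ r ∈ univ.filter (fun r => β r = b), x r}) ∩
          {y : R → ℝ | ∑ r, y r • g r = ∑ r, x r • g r}) := by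
        ext y
        simp only [P, Set.mem_ofPred_eq, Set.mem_inter_iff, Set.mem_iInter]
      rw [h2]
      apply IsClosed.inter
      · apply isClosed_iInter
        intro r
        exact isClosed_Icc.preimage (continuous_apply r)
      · apply IsClosed.inter
        · apply isClosed_iInter
          intro b
          apply isClosed_eq
          · exact continuous_finsetSum _ (fun r _ => continuous_apply r)
          · exact continuous_const
        · apply isClosed_eq
          · exact continuous_finsetSum _ (fun r _ => (continuous_apply r).smul continuous_const)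
          · exact continuous_const
    · intro y hy
      rw [Set.mem_univ_pi]
      exact hy.1
  obtain ⟨y, hyP, hyext⟩ := hPc.extremePoints_nonempty ⟨x, hPx⟩
  have hyF : Feas β y := by
    refine ⟨fun r => (hyP.1 r).1, fun r => (hyP.1 r).2, ?_⟩
    intro b
    obtain ⟨z, hz⟩ := hx.int b
    exact ⟨z, by rw [hyP.2.1 b, hz]⟩
  refine ⟨y, hyF, hyP.2.1, hyP.2.2, ?_⟩
  by_contra hcard
  push Not at hcard
  -- blocks meeting the fractional set
  set F := frac y with hF
  set FB := F.image β with hFB
  have hFB2 : 2 * FB.card ≤ F.card := by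
    rw [Finset.card_eq_sum_card_image β F, ← hFB, mul_comm]
    rw [← smul_eq_mul, ← Finset.sum_const]
    apply Finset.sum_le_sum
    intro b hb
    rw [hFB, Finset.mem_image] at hb
    obtain ⟨r, hr, hrb⟩ := hb
    obtain ⟨r', hr', hne, hβ⟩ := partner hyF r hr
    have : ({r, r'} : Finset R) ⊆ F.filter (fun s => β s = b) := by
      intro s hs
      rw [Finset.mem_insert, Finset.mem_singleton] at hs
      rw [Finset.mem_filter]
      rcases hs with rfl | rfl
      · exact ⟨hr, hrb⟩
      · exact ⟨hr', hβ.trans hrb⟩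
    have h2 := Finset.card_le_card this
    rw [Finset.card_pair hne.symm] at h2
    exact h2
  -- the linear map
  let L : (F → ℝ) →ₗ[ℝ] (E × (FB → ℝ)) :=
    { toFun := fun z => (∑ r : F, z r • g r.1,
        fun b => ∑ r : F, if β r.1 = b.1 then z r else 0)
      map_add' := by
        intro z w
        ext
        · simp [add_smul, Finset.sum_add_distrib]
        · simp only [Pi.add_apply, Prod.snd_add]
          rw [← Finset.sum_add_distrib]
          apply Finset.sum_congr rfl
          intro r _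
          split_ifs <;> simp
      map_smul' := by
        intro c z
        ext
        · simp [Finset.smul_sum, smul_smul]
        · simp only [Pi.smul_apply, RingHom.id_apply, Prod.smul_snd, smul_eq_mul]
          rw [Finset.mul_sum]
          apply Finset.sum_congr rfl
          intro r _
          split_ifs <;> simp }
  have hker : LinearMap.ker L ≠ ⊥ := by
    apply LinearMap.ker_ne_bot_of_finrank_lt
    rw [Module.finrank_prod, Module.finrank_fintype_fun_eq_card,
      Module.finrank_fintype_fun_eq_card, Fintype.card_coe, Fintype.card_coe]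
    omega
  obtain ⟨z, hz, hz0⟩ := (Submodule.ne_bot_iff _).mp hker
  rw [LinearMap.mem_ker] at hz
  have hz1 : ∑ r : F, z r • g r.1 = 0 := congrArg Prod.fst hz
  have hz2 : ∀ b : FB, ∑ r : F, (if β r.1 = b.1 then z r else 0) = 0 :=
    fun b => congrFun (congrArg Prod.snd hz) b
  -- extend by zero
  let zz : R → ℝ := fun r => if h : r ∈ F then z ⟨r, h⟩ else 0
  have hzz1 : ∑ r, zz r • g r = 0 := by
    rw [← hz1, ← Finset.sum_subset (Finset.subset_univ F)]
    · rw [← Finset.sum_coe_sort F]
      apply Finset.sum_congr rfl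
      intro r _
      simp [zz]
    · intro r _ hr
      simp [zz, hr]
  have hzz2 : ∀ b, ∑ r ∈ univ.filter (fun r => β r = b), zz r = 0 := by
    intro b
    by_cases hb : b ∈ FB
    · rw [← hz2 ⟨b, hb⟩, Finset.sum_filter, ← Finset.sum_subset (Finset.subset_univ F)]
      · rw [← Finset.sum_coe_sort F]
        apply Finset.sum_congr rfl
        intro r _
        simp [zz]
      · intro r _ hr
        simp [zz, hr]
    · apply Finset.sum_eq_zero
      intro r hr
      rw [Finset.mem_filter] at hr
      have : r ∉ F := by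
        intro h
        apply hb
        rw [hFB, Finset.mem_image]
        exact ⟨r, h, hr.2⟩
      simp [zz, this]
  have hzzne : ∃ r, zz r ≠ 0 := by
    by_contra hcon
    push Not at hcon
    apply hz0
    ext r
    have := hcon r.1
    simpa [zz] using this
  -- a small step
  obtain ⟨r0, hr0⟩ := hzzne
  have hr0F : r0 ∈ F := by
    by_contra h
    apply hr0
    simp [zz, h]
  obtain ⟨rδ, hrδ, hδmin⟩ := Finset.exists_min_image F (fun r => min (y r) (1 - y r)) ⟨r0, hr0F⟩
  obtain ⟨rM, hrM, hMmax⟩ := Finset.exists_max_image F (fun r => |zz r|) ⟨r0, hr0F⟩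
  set δ := min (y rδ) (1 - y rδ) with hδ
  set M := |zz rM| with hM
  have hδ0 : 0 < δ := by
    rw [hF, mem_frac] at hrδ
    exact lt_min hrδ.1 (by linarith [hrδ.2])
  have hM0 : 0 < M := lt_of_lt_of_le (abs_pos.mpr hr0) (hMmax r0 hr0F)
  set ε := δ / M with hε
  have hε0 : 0 < ε := div_pos hδ0 hM0
  have hstep : ∀ t : ℝ, |t| ≤ ε → (fun r => y r + t * zz r) ∈ P := by
    intro t ht
    refine ⟨?_, ?_, ?_⟩
    · intro r
      by_cases hr : r ∈ F
      · have h1 : |t * zz r| ≤ δ := by
          rw [abs_mul]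
          calc |t| * |zz r| ≤ ε * M := mul_le_mul ht (hMmax r hr) (abs_nonneg _) hε0.le
            _ = δ := div_mul_cancel₀ _ hM0.ne'
        have h2 := hδmin r hr
        have h3 := abs_le.mp h1
        have h4 : δ ≤ y r := h2.trans (min_le_left _ _)
        have h5 : δ ≤ 1 - y r := h2.trans (min_le_right _ _)
        constructor
        · show 0 ≤ y r + t * zz r
          linarith
        · show y r + t * zz r ≤ 1
          linarith
      · have : zz r = 0 := by simp [zz, hr]
        show y r + t * zz r ∈ Set.Icc (0 : ℝ) 1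
        rw [this, mul_zero, add_zero]
        exact hyP.1 r
    · intro b
      show ∑ r ∈ univ.filter (fun r => β r = b), (y r + t * zz r) = _
      rw [Finset.sum_add_distrib, ← Finset.mul_sum, hzz2 b, mul_zero, add_zero]
      exact hyP.2.1 b
    · show ∑ r, (y r + t * zz r) • g r = _
      have : ∀ r, (y r + t * zz r) • g r = y r • g r + t • (zz r • g r) := by
        intro r
        rw [add_smul, mul_smul]
      simp only [this]
      rw [Finset.sum_add_distrib, ← Finset.smul_sum, hzz1, smul_zero, add_zero]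
      exact hyP.2.2
  have h1 := hstep ε (abs_of_pos hε0).le
  have h2 := hstep (-ε) (by rw [abs_neg]; exact (abs_of_pos hε0).le)
  have h3 : y ∈ openSegment ℝ (fun r => y r + ε * zz r) (fun r => y r + -ε * zz r) := by
    refine ⟨1 / 2, 1 / 2, by norm_num, by norm_num, by norm_num, ?_⟩
    ext r
    simp only [Pi.add_apply, Pi.smul_apply, smul_eq_mul]
    ring
  have h4 := hyext h1 h2 h3
  have h5 : y r0 + ε * zz r0 = y r0 := congrFun h4 r0
  have h6 : ε * zz r0 = 0 := by linarith
  rcases mul_eq_zero.mp h6 with h | h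
  · exact hε0.ne' h
  · exact hr0 h

/-- The row choice. -/
lemma row_choice [FiniteDimensional ℝ E] (β : R → B) (g : R → E) (ρ : ℝ)
    (hg : ∀ r, ‖g r‖ ≤ ρ) (x : R → ℝ) (hx : Feas β x) :
    ∃ X : R → ℝ, (∀ r, X r = 0 ∨ X r = 1) ∧
      (∀ b, ∑ r ∈ univ.filter (fun r => β r = b), X r =
        ∑ r ∈ univ.filter (fun r => β r = b), x r) ∧
      ‖∑ r, (X r - x r) • g r‖ ^ 2 ≤ 2 * finrank ℝ E * ρ ^ 2 := by
  obtain ⟨y, hyF, hy1, hy2, hy3⟩ := few_frac β g x hx
  obtain ⟨X, hX1, hX2, hX3⟩ := rounding β g ρ hg (2 * finrank ℝ E) y hyF hy3 0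
  refine ⟨X, hX1, fun b => (hX2 b).trans (hy1 b), ?_⟩
  have e1 : ∑ r, (X r - x r) • g r = 0 + ∑ r, (X r - y r) • g r := by
    simp only [sub_smul, Finset.sum_sub_distrib]
    rw [hy2, zero_add]
  rw [e1]
  refine hX3.trans (le_of_eq ?_)
  rw [norm_zero]
  push_cast
  ring

end rounding


section main

variable {E : Type*} [NormedAddCommGroup E] [InnerProductSpace ℝ E]
variable {R C : Type*} [Fintype R] [DecidableEq R] [Fintype C] [DecidableEq C]

/-- The value of a block structure: each row is averaged over the columns of its block. -/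
noncomputable def val {B : Type*} [DecidableEq B] (h : R → C → E) (β : R → B) (κ : C → B) : E :=
  ∑ r, avg (univ.filter (fun c => κ c = β r)) (h r)

omit [Fintype C] in
/-- Splitting the average over a set into the averages over two parts. -/
lemma avg_split (S S1 : Finset C) (hS1 : S1 ⊆ S) (v : C → E) (a s : ℕ) (ha : S1.card = a)
    (hs : S.card = s) (ha0 : 0 < a) (has : a < s) :
    avg S v = ((a : ℝ) / s) • avg S1 v + (1 - (a : ℝ) / s) • avg (S \ S1) v := by
  have h1 : (S \ S1).card = s - a := by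
    rw [Finset.card_sdiff_of_subset hS1, ha, hs]
  have hsum : ∑ c ∈ S, v c = ∑ c ∈ S \ S1, v c + ∑ c ∈ S1, v c :=
    (Finset.sum_sdiff hS1).symm
  unfold avg
  rw [ha, hs, h1, hsum, Nat.cast_sub has.le, smul_smul, smul_smul, smul_add]
  have ha' : (0 : ℝ) < a := by exact_mod_cast ha0
  have hs' : (0 : ℝ) < s := by exact_mod_cast (ha0.trans has)
  have hsa' : (0 : ℝ) < (s : ℝ) - a := by
    have : (a : ℝ) < s := by exact_mod_cast has
    linarith
  have e1 : (a : ℝ) / s * (1 / a) = 1 / s := by field_simp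
  have e2 : (1 - (a : ℝ) / s) * (1 / ((s : ℝ) - a)) = 1 / s := by field_simp
  rw [e1, e2, add_comm]

/-- One halving step. -/
lemma halving [FiniteDimensional ℝ E] {B : Type} [DecidableEq B] (h : R → C → E)
    (hh : ∀ r c, ‖h r c‖ ≤ 1) (β : R → B) (κ : C → B) (m : ℕ) (hm : 1 ≤ m) (ρ : ℝ) (hρ : 0 ≤ ρ)
    (hρm : 2320 / (m : ℝ) ≤ (ρ ^ 2) ^ 2)
    (hs : ∀ b, (univ.filter (fun r => β r = b)).card = (univ.filter (fun c => κ c = b)).card)
    (hle : ∀ b, (univ.filter (fun r => β r = b)).card ≤ 2 * m) :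
    ∃ (X : R → Bool) (y : C → Bool),
      (∀ b e, (univ.filter (fun r => (β r, X r) = (b, e))).card =
        (univ.filter (fun c => (κ c, y c) = (b, e))).card) ∧
      (∀ b e, (univ.filter (fun r => (β r, X r) = (b, e))).card ≤ m) ∧
      ‖val h (fun r => (β r, X r)) (fun c => (κ c, y c)) - val h β κ‖ ^ 2 ≤
        2 * finrank ℝ E * ρ ^ 2 := by
  classical
  -- block sizes and halves
  let s : B → ℕ := fun b => (univ.filter (fun c => κ c = b)).card
  let a : B → ℕ := fun b => if m < s b then s b / 2 else 0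
  let Cb : B → Finset C := fun b => univ.filter (fun c => κ c = b)
  let Rb : B → Finset R := fun b => univ.filter (fun r => β r = b)
  have hsR : ∀ b, (Rb b).card = s b := hs
  have hsle : ∀ b, s b ≤ 2 * m := by
    intro b
    have h1 := hle b
    rw [hs b] at h1
    exact h1
  -- column choice
  have hcol : ∀ b, ∃ S1 : Finset C, S1 ⊆ Cb b ∧ S1.card = a b ∧
      (m < s b → ∀ r ∈ Rb b, ‖avg S1 (h r) - avg (Cb b \ S1) (h r)‖ ≤ ρ) := by
    intro b
    by_cases hb : m < s b
    · have h2 : 2 ≤ (Cb b).card := by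
        show 2 ≤ s b
        omega
      obtain ⟨S1, h3, h4, h5⟩ := block_choice (Rb b) (Cb b) h hh (hs b) h2
      refine ⟨S1, h3, ?_, ?_⟩
      · rw [h4]
        show s b / 2 = if m < s b then s b / 2 else 0
        rw [if_pos hb]
      · intro _ r hr
        have h6 := h5 r hr
        have h7 : (1160 : ℝ) / ((((Cb b).card / 2 : ℕ) : ℕ) : ℝ) ≤ 2320 / (m : ℝ) := by
          have h8 : m ≤ 2 * ((Cb b).card / 2) := by
            show m ≤ 2 * (s b / 2)
            omega
          have h9 : (m : ℝ) ≤ 2 * (((Cb b).card / 2 : ℕ) : ℝ) := by exact_mod_cast h8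
          have h10 : (0 : ℝ) < m := by exact_mod_cast hm
          have h11 : (0 : ℝ) < (((Cb b).card / 2 : ℕ) : ℝ) := by linarith
          rw [div_le_div_iff₀ h11 h10]
          linarith
        have h12 := h6.trans (h7.trans hρm)
        have h13 := (pow_le_pow_iff_left₀ (by positivity) (by positivity) (by norm_num)).mp h12
        exact (pow_le_pow_iff_left₀ (norm_nonneg _) hρ (by norm_num)).mp h13
    · refine ⟨∅, Finset.empty_subset _, ?_, fun h => absurd h hb⟩
      show (∅ : Finset C).card = if m < s b then s b / 2 else 0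
      rw [if_neg hb]
      rfl
  choose S1 hS1sub hS1card hS1norm using hcol
  -- the vectors for the rows
  let g : R → E := fun r => if m < s (β r) then
    avg (S1 (β r)) (h r) - avg (Cb (β r) \ S1 (β r)) (h r) else 0
  have hg : ∀ r, ‖g r‖ ≤ ρ := by
    intro r
    by_cases hb : m < s (β r)
    · simp only [g, if_pos hb]
      exact hS1norm (β r) hb r (by simp [Rb])
    · simp only [g, if_neg hb, norm_zero]
      exact hρ
  -- the fractional point
  let x : R → ℝ := fun r => (a (β r) : ℝ) / (s (β r) : ℝ)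
  have hxsum : ∀ b, ∑ r ∈ univ.filter (fun r => β r = b), x r = a b := by
    intro b
    have h1 : ∀ r ∈ univ.filter (fun r => β r = b), x r = (a b : ℝ) / (s b : ℝ) := by
      intro r hr
      rw [Finset.mem_filter] at hr
      simp only [x]
      rw [hr.2]
    rw [Finset.sum_congr rfl h1, Finset.sum_const, nsmul_eq_mul, hs b]
    show (s b : ℝ) * ((a b : ℝ) / (s b : ℝ)) = a b
    by_cases hsb : s b = 0
    · have : a b = 0 := by
        show (if m < s b then s b / 2 else 0) = 0
        rw [if_neg (by omega)]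
      rw [this, hsb]
      simp
    · have : (s b : ℝ) ≠ 0 := by exact_mod_cast hsb
      field_simp
  have hale : ∀ b, a b ≤ s b := by
    intro b
    show (if m < s b then s b / 2 else 0) ≤ s b
    split_ifs <;> omega
  have hxF : Feas β x := by
    refine ⟨?_, ?_, ?_⟩
    · intro r
      positivity
    · intro r
      apply div_le_one_of_le₀
      · exact_mod_cast hale (β r)
      · positivity
    · intro b
      exact ⟨a b, by rw [hxsum b]; simp⟩
  obtain ⟨X, hX1, hX2, hX3⟩ := row_choice β g ρ hg x hxF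
  -- boolean versions
  let Xb : R → Bool := fun r => decide (X r = 1)
  let yb : C → Bool := fun c => decide (c ∈ S1 (κ c))
  have hXsum : ∀ b, ((univ.filter (fun r => β r = b ∧ X r = 1)).card : ℝ) = a b := by
    intro b
    have h1 : ∑ r ∈ univ.filter (fun r => β r = b), X r =
        ∑ r ∈ univ.filter (fun r => β r = b), (if X r = 1 then (1 : ℝ) else 0) := by
      apply Finset.sum_congr rfl
      intro r _
      rcases hX1 r with h | h
      · rw [h]; simp
      · rw [h]; simp
    rw [← hxsum b, ← hX2 b, h1, Finset.sum_boole, Finset.filter_filter]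
  have hXcard : ∀ b, (univ.filter (fun r => β r = b ∧ X r = 1)).card = a b := by
    intro b
    exact_mod_cast hXsum b
  have hXcard' : ∀ b, (univ.filter (fun r => β r = b ∧ ¬ X r = 1)).card = s b - a b := by
    intro b
    have h1 := Finset.card_filter_add_card_filter_not
      (s := univ.filter (fun r => β r = b)) (fun r => X r = 1)
    rw [Finset.filter_filter, Finset.filter_filter, hXcard b, hs b] at h1
    have h2 : (univ.filter (fun c => κ c = b)).card = s b := rfl
    omega
  have hyset : ∀ b, univ.filter (fun c => κ c = b ∧ c ∈ S1 (κ c)) = S1 b := by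
    intro b
    ext c
    simp only [Finset.mem_filter, Finset.mem_univ, true_and]
    constructor
    · rintro ⟨h1, h2⟩
      rw [← h1]
      exact h2
    · intro h1
      have h2 := hS1sub b h1
      simp only [Cb, Finset.mem_filter, Finset.mem_univ, true_and] at h2
      refine ⟨h2, ?_⟩
      rw [h2]
      exact h1
  have hyset' : ∀ b, univ.filter (fun c => κ c = b ∧ ¬ c ∈ S1 (κ c)) = Cb b \ S1 b := by
    intro b
    ext c
    simp only [Cb, Finset.mem_filter, Finset.mem_univ, true_and, Finset.mem_sdiff]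
    constructor
    · rintro ⟨h1, h2⟩
      rw [h1] at h2
      exact ⟨h1, h2⟩
    · rintro ⟨h1, h2⟩
      rw [h1]
      exact ⟨rfl, h2⟩
  have hRt : ∀ b, univ.filter (fun r => (β r, Xb r) = (b, true)) =
      univ.filter (fun r => β r = b ∧ X r = 1) := by
    intro b
    ext r
    simp [Xb]
  have hRf : ∀ b, univ.filter (fun r => (β r, Xb r) = (b, false)) =
      univ.filter (fun r => β r = b ∧ ¬ X r = 1) := by
    intro b
    ext r
    simp [Xb]
  have hCt : ∀ b, univ.filter (fun c => (κ c, yb c) = (b, true)) = S1 b := by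
    intro b
    rw [← hyset b]
    ext c
    simp [yb]
  have hCf : ∀ b, univ.filter (fun c => (κ c, yb c) = (b, false)) = Cb b \ S1 b := by
    intro b
    rw [← hyset' b]
    ext c
    simp [yb]
  refine ⟨Xb, yb, ?_, ?_, ?_⟩
  · rintro b (e | e)
    · rw [hRf, hCf, hXcard', Finset.card_sdiff_of_subset (hS1sub b), hS1card]
    · rw [hRt, hCt, hXcard, hS1card]
  · rintro b (e | e)
    · rw [hRf, hXcard']
      have h1 := hsle b
      show s b - (if m < s b then s b / 2 else 0) ≤ m
      split_ifs with hb <;> omega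
    · rw [hRt, hXcard]
      have h1 := hsle b
      show (if m < s b then s b / 2 else 0) ≤ m
      split_ifs with hb <;> omega
  · have hval : val h (fun r => (β r, Xb r)) (fun c => (κ c, yb c)) - val h β κ =
        ∑ r, (X r - x r) • g r := by
      unfold val
      rw [← Finset.sum_sub_distrib]
      apply Finset.sum_congr rfl
      intro r _
      show avg (univ.filter (fun c => (κ c, yb c) = (β r, Xb r))) (h r) -
        avg (univ.filter (fun c => κ c = β r)) (h r) = (X r - x r) • g r
      by_cases hb : m < s (β r)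
      · have ha : a (β r) = s (β r) / 2 := by
          show (if m < s (β r) then s (β r) / 2 else 0) = _
          rw [if_pos hb]
        have hsplit := avg_split (Cb (β r)) (S1 (β r)) (hS1sub _) (h r) (a (β r)) (s (β r))
          (hS1card _) rfl (by omega) (by omega)
        have hsplit' : avg (univ.filter (fun c => κ c = β r)) (h r) = _ := hsplit
        rw [hsplit']
        rcases hX1 r with hX | hX
        · have e1 : (β r, Xb r) = (β r, false) := by simp [Xb, hX]
          rw [e1, hCf]
          simp only [g, if_pos hb, hX, x]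
          rw [smul_sub, sub_smul, sub_smul, sub_smul, one_smul, zero_smul, zero_smul]
          abel
        · have e1 : (β r, Xb r) = (β r, true) := by simp [Xb, hX]
          rw [e1, hCt]
          simp only [g, if_pos hb, hX, x]
          rw [smul_sub, sub_smul, sub_smul, one_smul, one_smul]
          abel
      · -- small block
        have ha : a (β r) = 0 := by
          show (if m < s (β r) then s (β r) / 2 else 0) = _
          rw [if_neg hb]
        have hXr : X r = 0 := by
          rcases hX1 r with hX | hX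
          · exact hX
          · exfalso
            have h1 := hXcard (β r)
            rw [ha, Finset.card_eq_zero] at h1
            have h2 : r ∈ univ.filter (fun r' => β r' = β r ∧ X r' = 1) := by simp [hX]
            rw [h1] at h2
            simp at h2
        have hS1e : S1 (β r) = ∅ := by
          rw [← Finset.card_eq_zero, hS1card, ha]
        have e1 : (β r, Xb r) = (β r, false) := by simp [Xb, hXr]
        rw [e1, hCf, hS1e, Finset.sdiff_empty]
        simp only [g, if_neg hb, smul_zero]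
        exact sub_self _
    rw [hval]
    exact hX3

/-- The recursion. -/
lemma recursion [FiniteDimensional ℝ E] (h : R → C → E) (hh : ∀ r c, ‖h r c‖ ≤ 1)
    (hRC : Fintype.card R = Fintype.card C) (j : ℕ) :
    ∀ (B : Type) [DecidableEq B] (β : R → B) (κ : C → B),
      (∀ b, (univ.filter (fun r => β r = b)).card = (univ.filter (fun c => κ c = b)).card) →
      (∀ b, (univ.filter (fun r => β r = b)).card ≤ 2 ^ j) →
      ∃ σ : R ≃ C, ‖∑ r, h r (σ r) - val h β κ‖ ≤
        70 * Real.sqrt (finrank ℝ E) * (1 - (0.85 : ℝ) ^ j) := by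
  induction j with
  | zero =>
    intro B _ β κ hs hle
    -- each block is a single pair
    have hex : ∀ r, ∃ c, univ.filter (fun c => κ c = β r) = {c} := by
      intro r
      rw [← Finset.card_eq_one]
      have h1 := hle (β r)
      have h2 : 0 < (univ.filter (fun r' => β r' = β r)).card :=
        Finset.card_pos.mpr ⟨r, by simp⟩
      rw [← hs (β r)]
      simp only [pow_zero] at h1
      omega
    choose τ hτ using hex
    have hτκ : ∀ r, κ (τ r) = β r := by
      intro r
      have : τ r ∈ univ.filter (fun c => κ c = β r) := by rw [hτ r]; simp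
      simpa using this
    have hinj : Function.Injective τ := by
      intro r r' hrr
      have h1 : β r = β r' := by rw [← hτκ r, ← hτκ r', hrr]
      have h2 := hle (β r')
      simp only [pow_zero] at h2
      rw [Finset.card_le_one] at h2
      exact h2 r (by simp [h1]) r' (by simp)
    have hbij : Function.Bijective τ :=
      (Fintype.bijective_iff_injective_and_card τ).mpr ⟨hinj, hRC⟩
    refine ⟨Equiv.ofBijective τ hbij, ?_⟩
    have h1 : ∑ r, h r ((Equiv.ofBijective τ hbij) r) = val h β κ := by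
      unfold val
      apply Finset.sum_congr rfl
      intro r _
      rw [hτ r]
      unfold avg
      simp
    rw [h1]
    simp
  | succ j ih =>
    intro B _ β κ hs hle
    have hm : 1 ≤ 2 ^ j := Nat.one_le_two_pow
    have hρm : 2320 / (((2 ^ j : ℕ) : ℕ) : ℝ) ≤ ((7 * (0.85 : ℝ) ^ j) ^ 2) ^ 2 := by
      push_cast
      have h1 : ((7 * (0.85 : ℝ) ^ j) ^ 2) ^ 2 = 2401 * ((0.85 : ℝ) ^ 4) ^ j := by
        rw [← pow_mul, mul_pow, ← pow_mul, ← pow_mul, mul_comm j, mul_comm 4 j]
        norm_num
      rw [h1]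
      have h2 : (2320 : ℝ) / 2 ^ j = 2320 * ((1 / 2 : ℝ)) ^ j := by
        rw [one_div, inv_pow]
        rfl
      rw [h2]
      apply mul_le_mul (by norm_num) _ (by positivity) (by norm_num)
      apply pow_le_pow_left₀ (by norm_num)
      norm_num
    obtain ⟨X, y, h1, h2, h3⟩ := halving h hh β κ (2 ^ j) hm (7 * (0.85 : ℝ) ^ j)
      (by positivity) hρm hs (by intro b; rw [← pow_succ']; exact hle b)
    obtain ⟨σ, hσ⟩ := ih (B × Bool) (fun r => (β r, X r)) (fun c => (κ c, y c))
      (by rintro ⟨b, e⟩; exact h1 b e) (by rintro ⟨b, e⟩; exact h2 b e)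
    refine ⟨σ, ?_⟩
    have h4 : ‖val h (fun r => (β r, X r)) (fun c => (κ c, y c)) - val h β κ‖ ≤
        10 * Real.sqrt (finrank ℝ E) * (0.85 : ℝ) ^ j := by
      apply le_of_sq_le_sq _ (by positivity)
      refine h3.trans ?_
      have e1 : (10 * Real.sqrt (finrank ℝ E) * (0.85 : ℝ) ^ j) ^ 2 =
          100 * (Real.sqrt (finrank ℝ E)) ^ 2 * ((0.85 : ℝ) ^ j) ^ 2 := by ring
      rw [e1, Real.sq_sqrt (Nat.cast_nonneg _)]
      have : (0 : ℝ) ≤ (finrank ℝ E : ℝ) * ((0.85 : ℝ) ^ j) ^ 2 := by positivity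
      nlinarith
    calc ‖∑ r, h r (σ r) - val h β κ‖
        = ‖(∑ r, h r (σ r) - val h (fun r => (β r, X r)) (fun c => (κ c, y c))) +
            (val h (fun r => (β r, X r)) (fun c => (κ c, y c)) - val h β κ)‖ := by
          congr 1; abel
      _ ≤ 70 * Real.sqrt (finrank ℝ E) * (1 - (0.85 : ℝ) ^ j) +
            10 * Real.sqrt (finrank ℝ E) * (0.85 : ℝ) ^ j :=
          (norm_add_le _ _).trans (add_le_add hσ h4)
      _ ≤ 70 * Real.sqrt (finrank ℝ E) * (1 - (0.85 : ℝ) ^ (j + 1)) := by
          rw [pow_succ]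
          have h5 : 0 ≤ Real.sqrt (finrank ℝ E) * (0.85 : ℝ) ^ j := by positivity
          nlinarith

/-- The main theorem in an arbitrary finite-dimensional real inner product space. -/
theorem main_bound [FiniteDimensional ℝ E] {n : ℕ} (h : Fin n → Fin n → E)
    (hh : ∀ i j, ‖h i j‖ ≤ 1) :
    ∃ σ : Equiv.Perm (Fin n), ‖∑ i, h i (σ i) - (1 / (n : ℝ)) • ∑ i, ∑ j, h i j‖ ≤
      70 * Real.sqrt (finrank ℝ E) := by
  obtain ⟨j, hj⟩ : ∃ j : ℕ, n ≤ 2 ^ j := ⟨n, Nat.lt_two_pow_self.le⟩
  obtain ⟨σ, hσ⟩ := recursion h hh rfl j Unit (fun _ => ()) (fun _ => ())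
    (by intro b; simp) (by intro b; simpa using hj)
  refine ⟨σ, ?_⟩
  have h1 : val h (fun _ => ()) (fun _ => ()) = (1 / (n : ℝ)) • ∑ i, ∑ j, h i j := by
    unfold val avg
    simp [Finset.smul_sum]
  rw [h1] at hσ
  refine hσ.trans ?_
  have h2 : (0 : ℝ) ≤ (0.85 : ℝ) ^ j := by positivity
  have h3 : 0 ≤ Real.sqrt (finrank ℝ E) := Real.sqrt_nonneg _
  nlinarith

end main

end Pool.Agent.LibMatchDisc
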